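import Mathlib
import Pool.Agent.H34R2.U.Fin1

set_option autoImplicit false

namespace Pool.Agent.Results.MP_d15038_co.FullAnswer

open Classical
open Pool.Agent.Helper428.UMR

/-- Full answer. Let `(n, m)` lie in the range of the problem, `n² - 3n + 4 ≤ 2m < n² - 2n`, and
put `a = n² - 2n - 2m ≥ 1` (so `(n + a) / 2` edges are missing from `K_n`). A uniformly most
reliable graph with `n` vertices and `m` edges exists if and only if `a = 1` or `3 ∣ a`.
If `a = 1`, every `G` whose complement has no isolated vertex (a path with two edges and single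
edges) is uniformly most reliable. If `3 ∣ a`, then `G` is uniformly most reliable if and only if
its complement `H` is a disjoint union of triangles and single edges: all degrees of `H` are one
or two and adjacency in `H` is transitive. -/
theorem result (n m a : ℕ) (hrange : n ^ 2 + 4 ≤ 2 * m + 3 * n)
    (ha : 2 * m + a + 2 * n = n ^ 2) (ha1 : 1 ≤ a) :
    ((∃ G : SimpleGraph (Fin n), G.edgeFinset.card = m ∧ IsUMR G) ↔ (a = 1 ∨ 3 ∣ a)) ∧
    (a = 1 → ∀ G H : SimpleGraph (Fin n), G.edgeFinset.card = m → H = Gᶜ →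
      (∀ v, 1 ≤ H.degree v) → IsUMR G) ∧
    (3 ∣ a → ∀ G H : SimpleGraph (Fin n), G.edgeFinset.card = m → H = Gᶜ →
      (IsUMR G ↔ ((∀ v, H.degree v = 1 ∨ H.degree v = 2) ∧
        ∀ u v w, H.Adj u v → H.Adj v w → u ≠ w → H.Adj u w))) :=
  Pool.Agent.H34R2.U.full_answer n m a hrange ha ha1

end Pool.Agent.Results.MP_d15038_co.FullAnswer
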